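import Pool.Agent.Y545.HM.St

/-!
# Hindman's theorem and perturbed colourings: the deterministic part (helper13)
-/

set_option autoImplicit false

namespace Pool.Agent.Helper13s

open Pool.Agent.Y545.HM Pool.Agent.Helper446 Pool.Agent.Helper446.Oracle

/-! ### Sums -/

/-- the sums of the sublists (with the empty sum) -/
def sums (l : List ℕ) : List ℕ := l.foldr (fun v L => L ++ L.map (fun s => v + s)) [0]

theorem sums_nil : sums [] = [0] := rfl

theorem sums_cons (v : ℕ) (l : List ℕ) : sums (v :: l) = sums l ++ (sums l).map (fun s => v + s) := rfl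

theorem mem_sums_cons {v s : ℕ} {l : List ℕ} :
    s ∈ sums (v :: l) ↔ s ∈ sums l ∨ ∃ t ∈ sums l, v + t = s := by
  rw [sums_cons, List.mem_append, List.mem_map]

theorem computable_sums : Computable sums := by
  have h1 : Primrec fun x : List ℕ × (ℕ × List ℕ) => x.2.2 ++ x.2.2.map (fun s => x.2.1 + s) := by
    apply Primrec.list_append.comp
    · exact Primrec.snd.comp Primrec.snd
    · refine Primrec.list_map (Primrec.snd.comp Primrec.snd) (Primrec₂.mk ?_)
      exact Primrec.nat_add.comp (Primrec.fst.comp (Primrec.snd.comp Primrec.fst)) Primrec.snd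
  have h2 := Primrec.list_foldr (f := fun l : List ℕ => l) (g := fun _ : List ℕ => [0])
    (h := fun (_ : List ℕ) (p : ℕ × List ℕ) => p.2 ++ p.2.map (fun s => p.1 + s))
    Primrec.id (Primrec.const [0]) (Primrec₂.mk h1)
  exact h2.to_comp

/-- finite sums of an increasing sequence -/
theorem fs_of {x : ℕ → ℕ} (hx : StrictMono x) {w : ℕ → List ℕ} (hw0 : w 0 = [])
    (hw : ∀ n, w (n + 1) = x n :: w n) {P : ℕ → Prop} (hP : ∀ n, ∀ s ∈ sums (w n), P (x n + s)) :
    ∀ F : Finset ℕ, (F : Set ℕ) ⊆ Set.range x → F.Nonempty → P (∑ a ∈ F, a) := by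
  have h1 : ∀ n, ∀ F : Finset ℕ, (∀ a ∈ F, ∃ i < n, x i = a) → ∑ a ∈ F, a ∈ sums (w n) := by
    intro n
    induction n with
    | zero =>
      intro F hF
      have : F = ∅ := by
        rw [Finset.eq_empty_iff_forall_notMem]
        intro a ha
        obtain ⟨i, hi, _⟩ := hF a ha
        omega
      rw [this, hw0, Finset.sum_empty, sums_nil]
      exact List.mem_singleton.2 rfl
    | succ n ih =>
      intro F hF
      rw [hw, mem_sums_cons]
      by_cases hn : x n ∈ F
      · right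
        refine ⟨∑ a ∈ F.erase (x n), a, ih _ ?_, Finset.add_sum_erase F (fun a => a) hn⟩
        intro a ha
        rw [Finset.mem_erase] at ha
        obtain ⟨i, hi, hia⟩ := hF a ha.2
        refine ⟨i, ?_, hia⟩
        have : i ≠ n := by
          rintro rfl
          exact ha.1 hia.symm
        omega
      · left
        apply ih
        intro a ha
        obtain ⟨i, hi, hia⟩ := hF a ha
        refine ⟨i, ?_, hia⟩
        have : i ≠ n := by
          rintro rfl
          exact hn (hia ▸ ha)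
        omega
  intro F hF hne
  obtain ⟨n, hn⟩ := hF (F.max'_mem hne)
  rw [← Finset.add_sum_erase F (fun a => a) (F.max'_mem hne), ← hn]
  apply hP
  apply h1
  intro a ha
  rw [Finset.mem_erase] at ha
  obtain ⟨i, hi⟩ := hF (Finset.mem_coe.2 ha.2)
  refine ⟨i, ?_, hi⟩
  have h2 : a < x n := lt_of_le_of_ne (by rw [hn]; exact F.le_max' a ha.2) ha.1
  rw [← hi] at h2
  exact hx.lt_iff_lt.1 h2

/-! ### The greedy construction -/

variable {A : Set ℕ}

theorem greedy {β : Type} [Primcodable β] {Inv : List β → Prop} {R : List β → β → Prop}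
    (hI : REIn A fun u : List β => ¬ Inv u) (hR : REIn A fun x : List β × β => R x.1 x.2)
    (h0 : Inv []) (hstep : ∀ u, Inv u → ∃ b, R u b) (hpres : ∀ u b, Inv u → R u b → Inv (b :: u)) :
    ∃ (p : ℕ → β) (w : ℕ → List β), Gr A p ∧ w 0 = [] ∧ (∀ n, w (n + 1) = p n :: w n) ∧
      ∀ n, Inv (w n) ∧ R (w n) (p n) := by
  obtain ⟨b0, -⟩ := hstep [] h0
  have h1 : REIn A fun x : List β × β => ¬ Inv x.1 ∨ R x.1 x.2 :=
    REIn.or (hI.comp (f := fun x : List β × β => x.1) (by fun_prop)) hR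
  obtain ⟨f, hf, hf2⟩ := choice (R := fun (u : List β) (b : β) => ¬ Inv u ∨ R u b) h1 (by
    intro u
    by_cases h : Inv u
    · obtain ⟨b, hb⟩ := hstep u h
      exact ⟨b, Or.inr hb⟩
    · exact ⟨b0, Or.inl h⟩)
  have hg : Gr A fun u : List β => f u :: u :=
    Gr.post (g := fun q : β × List β => q.1 :: q.2) (by
      exact Primrec.list_cons.to_comp.comp Computable.fst Computable.snd)
      (hf.pair (Gr.of_comp Computable.id))
  have hw : Gr A fun n : ℕ => (fun u : List β => f u :: u)^[n] [] := hg.iter []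
  refine ⟨fun n => f ((fun u : List β => f u :: u)^[n] []),
    fun n => (fun u : List β => f u :: u)^[n] [], hf.comp hw, rfl, ?_, ?_⟩
  · intro n
    exact Function.iterate_succ_apply' _ n []
  · intro n
    have h2 : Inv ((fun u : List β => f u :: u)^[n] []) := by
      induction n with
      | zero => exact h0
      | succ n ih =>
        rw [Function.iterate_succ_apply']
        exact hpres _ _ ih ((hf2 _).resolve_left (not_not.2 ih))
    exact ⟨h2, (hf2 _).resolve_left (not_not.2 h2)⟩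

theorem Gr.eq_const {k : ℕ} {α : Type} [Primcodable α] {c : ℕ → Fin k} (hc : Gr A c) (i : Fin k)
    {f : α → ℕ} (hf : Computable f) : REIn A fun a => c (f a) = i :=
  REIn.comp hc (f := fun a : α => (f a, i)) (hf.pair (Computable.const i))

/-- If every finite pattern of the colour `i` occurs arbitrarily far out, there is a solution of the
colour `i` which is computable from the colouring. -/
theorem super {k : ℕ} {c : ℕ → Fin k} (hc : Gr A c) (i : Fin k)
    (hH : ∀ (L : List ℕ) (N : ℕ), ∃ y, N < y ∧ ∀ s ∈ L, c (y + s) = i) :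
    ∃ X : Set ℕ, (X.Infinite ∧ 0 ∉ X ∧ ∀ F : Finset ℕ, (F : Set ℕ) ⊆ X → F.Nonempty →
      c (∑ x ∈ F, x) = i) ∧ Dec A X := by
  obtain ⟨p, w, hp, hw0, hw, h⟩ := greedy (A := A) (β := ℕ) (Inv := fun _ => True)
    (R := fun u y => (∀ x ∈ u, x < y) ∧ 0 < y ∧ ∀ s ∈ sums u, c (y + s) = i)
    (by
      refine (REIn.of_re (S := fun _ : List ℕ => False) (RE.const False)).of_eq fun a => ?_
      simp)
    (by
      refine REIn.and ?_ (REIn.and ?_ ?_)
      · refine REIn.all_mem (S := fun (x : List ℕ × ℕ) (a : ℕ) => a < x.2)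
          (l := fun x : List ℕ × ℕ => x.1) ?_ (by fun_prop)
        exact (dp_lt (f := fun x : (List ℕ × ℕ) × ℕ => x.2) (g := fun x : (List ℕ × ℕ) × ℕ => x.1.2)
          (by fun_prop) (by fun_prop)).1
      · exact (dp_lt (f := fun x : (List ℕ × ℕ) => 0) (g := fun x : (List ℕ × ℕ) => x.2)
          (by fun_prop) (by fun_prop)).1
      · refine REIn.all_mem (S := fun (x : List ℕ × ℕ) (s : ℕ) => c (x.2 + s) = i)
          (l := fun x : List ℕ × ℕ => sums x.1) ?_ (computable_sums.comp Computable.fst)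
        exact Gr.eq_const hc i (f := fun x : (List ℕ × ℕ) × ℕ => x.1.2 + x.2)
          (Primrec.nat_add.to_comp.comp (by fun_prop) (by fun_prop)))
    trivial
    (by
      intro u _
      obtain ⟨y, hy, hy2⟩ := hH (sums u) (u.sum)
      refine ⟨y, fun x hx => lt_of_le_of_lt (List.le_sum_of_mem hx) hy, by omega, hy2⟩)
    (fun _ _ _ _ => trivial)
  have hmono : StrictMono p := by
    apply strictMono_nat_of_lt_succ
    intro n
    have h1 := (h (n + 1)).2.1
    rw [hw] at h1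
    exact h1 _ List.mem_cons_self
  refine ⟨Set.range p, ⟨Set.infinite_range_of_injective hmono.injective, ?_, ?_⟩,
    range_dec hp hmono⟩
  · rintro ⟨n, hn⟩
    have := (h n).2.2.1
    omega
  · exact fs_of hmono hw0 hw (P := fun t => c t = i) fun n s hs => (h n).2.2.2 s hs

/-! ### Sparse sets -/

/-- `R` contains only finitely many translates of every set with `m` elements. -/
def Sparse (m : ℕ) (R : Set ℕ) : Prop :=
  ∀ H : Finset ℕ, H.card = m → {y | ∀ h ∈ H, y + h ∈ R}.Finite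

open Filter in
theorem exists_bound {m : ℕ} {R X : Set ℕ} (hR : Sparse m R) (hX : X.Infinite) :
    ∃ b : ℕ, ∀ y₁, b < y₁ → ∀ L : List ℕ, ∃ y₂, y₁ < y₂ ∧ y₂ ∈ X ∧ ∀ s ∈ L, y₁ + y₂ + s ∉ R := by
  have : (cofinite ⊓ 𝓟 X).NeBot := cofinite_inf_principal_neBot_iff.2 hX
  obtain ⟨V, hV⟩ : ∃ V : Ultrafilter ℕ, V = Ultrafilter.of (cofinite ⊓ 𝓟 X) := ⟨_, rfl⟩
  have hle : (V : Filter ℕ) ≤ cofinite ⊓ 𝓟 X := by
    rw [hV]
    exact Ultrafilter.of_le _
  have hcof : (V : Filter ℕ) ≤ cofinite := hle.trans inf_le_left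
  have hVX : ∀ᶠ l in (V : Filter ℕ), l ∈ X := by
    have : X ∈ (V : Filter ℕ) := hle (mem_inf_of_right (mem_principal_self X))
    exact this
  have hfin : ∀ s : Set ℕ, s.Finite → ∀ᶠ l in (V : Filter ℕ), l ∉ s := by
    intro s hs
    apply hcof
    exact hs.compl_mem_cofinite
  have hB : {h : ℕ | ∀ᶠ l in (V : Filter ℕ), l + h ∈ R}.Finite := by
    by_contra hcon
    obtain ⟨H, hH1, hH2⟩ := Set.Infinite.exists_subset_card_eq hcon m
    have h1 : ∀ᶠ l in (V : Filter ℕ), ∀ h ∈ H, l + h ∈ R := by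
      rw [eventually_all_finset]
      intro h hh
      exact hH1 hh
    have h2 := hfin _ (hR H hH2)
    obtain ⟨l, hl1, hl2⟩ := (h1.and h2).exists
    exact hl2 hl1
  obtain ⟨b, hb⟩ := hB.bddAbove
  refine ⟨b, fun y₁ hy₁ L => ?_⟩
  have h3 : ∀ᶠ l in (V : Filter ℕ), ∀ s ∈ L.toFinset, l + (y₁ + s) ∉ R := by
    rw [eventually_all_finset]
    intro s _
    rw [Ultrafilter.eventually_not]
    intro h4
    have h5 := hb h4
    omega
  have h4 : ∀ᶠ l in (V : Filter ℕ), l ∉ {l | l ≤ y₁} := hfin _ (Set.finite_le_nat y₁)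
  obtain ⟨l, hl1, hl2, hl3⟩ := (h3.and (h4.and hVX)).exists
  refine ⟨l, not_le.1 hl2, hl3, fun s hs => ?_⟩
  have h5 := hl1 s (List.mem_toFinset.2 hs)
  have e : l + (y₁ + s) = y₁ + l + s := by ring
  rwa [e] at h5

/-- the invariant -/
def Iv (X : Set ℕ) (u : List (ℕ × ℕ)) : Prop :=
  (∀ q ∈ u, q.1 ∈ X ∧ q.2 ∈ X ∧ q.1 < q.2) ∧ u.Pairwise fun p q => q.1 + q.2 < p.1

theorem iv_sums {X : Set ℕ} : ∀ u : List (ℕ × ℕ), Iv X u →
    ∀ s ∈ sums (u.map fun q => q.1 + q.2), ∃ G : Finset ℕ, (G : Set ℕ) ⊆ X ∧ ∑ x ∈ G, x = s ∧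
      ∀ g ∈ G, ∃ q ∈ u, g ≤ q.1 + q.2 := by
  intro u
  induction u with
  | nil =>
    intro _ s hs
    rw [List.map_nil, sums_nil, List.mem_singleton] at hs
    subst hs
    exact ⟨∅, by simp, by simp, by simp⟩
  | cons q u ih =>
    intro hI s hs
    obtain ⟨h1, h2⟩ := hI
    rw [List.pairwise_cons] at h2
    have ih' := ih ⟨fun r hr => h1 r (List.mem_cons_of_mem _ hr), h2.2⟩
    rw [List.map_cons, mem_sums_cons] at hs
    rcases hs with hs | ⟨t, ht, rfl⟩
    · obtain ⟨G, hG1, hG2, hG3⟩ := ih' s hs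
      refine ⟨G, hG1, hG2, fun g hg => ?_⟩
      obtain ⟨r, hr, hr2⟩ := hG3 g hg
      exact ⟨r, List.mem_cons_of_mem _ hr, hr2⟩
    · obtain ⟨G, hG1, hG2, hG3⟩ := ih' t ht
      obtain ⟨hq1, hq2, hq3⟩ := h1 q List.mem_cons_self
      have hlt : ∀ g ∈ G, g < q.1 := by
        intro g hg
        obtain ⟨r, hr, hr2⟩ := hG3 g hg
        exact lt_of_le_of_lt hr2 (h2.1 r hr)
      have n2 : q.2 ∉ G := fun h => by have := hlt _ h; omega
      have n1 : q.1 ∉ insert q.2 G := by
        rw [Finset.mem_insert]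
        rintro (h | h)
        · omega
        · exact lt_irrefl _ (hlt _ h)
      refine ⟨insert q.1 (insert q.2 G), ?_, ?_, ?_⟩
      · intro g hg
        rw [Finset.mem_coe, Finset.mem_insert, Finset.mem_insert] at hg
        rcases hg with rfl | rfl | hg
        · exact hq1
        · exact hq2
        · exact hG1 hg
      · rw [Finset.sum_insert n1, Finset.sum_insert n2, hG2]
        ring
      · intro g hg
        rw [Finset.mem_insert, Finset.mem_insert] at hg
        rcases hg with rfl | rfl | hg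
        · exact ⟨q, List.mem_cons_self, by omega⟩
        · exact ⟨q, List.mem_cons_self, by omega⟩
        · obtain ⟨r, hr, hr2⟩ := hG3 g hg
          exact ⟨r, List.mem_cons_of_mem _ hr, hr2⟩

theorem re_not_iv {X : Set ℕ} (hX : Dec A X) : REIn A fun u : List (ℕ × ℕ) => ¬ Iv X u := by
  have h1 : REIn A fun u : List (ℕ × ℕ) => (∃ q : ℕ × ℕ, q ∈ u ∧ (q.1 ∉ X ∨ q.2 ∉ X ∨ ¬ q.1 < q.2)) ∨
      ∃ z : (ℕ × ℕ) × ((ℕ × ℕ) × (ℕ × ℕ)), z.1.1 < z.1.2 ∧ u[z.1.1]? = some z.2.1 ∧
        u[z.1.2]? = some z.2.2 ∧ ¬ z.2.2.1 + z.2.2.2 < z.2.1.1 := by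
    refine REIn.or ?_ ?_
    · refine REIn.ex (S := fun (u : List (ℕ × ℕ)) (q : ℕ × ℕ) =>
        q ∈ u ∧ (q.1 ∉ X ∨ q.2 ∉ X ∨ ¬ q.1 < q.2)) (REIn.and ?_ (REIn.or ?_ (REIn.or ?_ ?_)))
      · exact REIn.of_re (RE.mem_list (f := fun x : List (ℕ × ℕ) × (ℕ × ℕ) => x.2)
          (l := fun x : List (ℕ × ℕ) × (ℕ × ℕ) => x.1) (by fun_prop) (by fun_prop))
      · exact hX.2.comp (f := fun x : List (ℕ × ℕ) × (ℕ × ℕ) => x.2.1) (by fun_prop)
      · exact hX.2.comp (f := fun x : List (ℕ × ℕ) × (ℕ × ℕ) => x.2.2) (by fun_prop)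
      · exact (dp_lt (f := fun x : List (ℕ × ℕ) × (ℕ × ℕ) => x.2.1)
          (g := fun x : List (ℕ × ℕ) × (ℕ × ℕ) => x.2.2) (by fun_prop) (by fun_prop)).2
    · refine REIn.ex (S := fun (u : List (ℕ × ℕ)) (z : (ℕ × ℕ) × ((ℕ × ℕ) × (ℕ × ℕ))) =>
        z.1.1 < z.1.2 ∧ u[z.1.1]? = some z.2.1 ∧
        u[z.1.2]? = some z.2.2 ∧ ¬ z.2.2.1 + z.2.2.2 < z.2.1.1)
        (REIn.and ?_ (REIn.and ?_ (REIn.and ?_ ?_)))
      · exact (dp_lt (f := fun x : List (ℕ × ℕ) × ((ℕ × ℕ) × ((ℕ × ℕ) × (ℕ × ℕ))) => x.2.1.1)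
          (g := fun x => x.2.1.2) (by fun_prop) (by fun_prop)).1
      · exact REIn.of_re (RE.eq (by fun_prop) (by fun_prop))
      · exact REIn.of_re (RE.eq (by fun_prop) (by fun_prop))
      · exact (dp_lt (f := fun x : List (ℕ × ℕ) × ((ℕ × ℕ) × ((ℕ × ℕ) × (ℕ × ℕ))) =>
          x.2.2.2.1 + x.2.2.2.2) (g := fun x => x.2.2.1.1)
          (Primrec.nat_add.to_comp.comp (by fun_prop) (by fun_prop)) (by fun_prop)).2
  refine h1.of_eq fun u => ?_
  unfold Iv
  rw [not_and_or]
  refine or_congr ?_ ?_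
  · push Not
    constructor
    · rintro ⟨q, hq, h⟩
      refine ⟨q, hq, fun h2 h3 => ?_⟩
      rcases h with h | h | h
      · exact absurd h2 h
      · exact absurd h3 h
      · exact h
    · rintro ⟨q, hq, h⟩
      refine ⟨q, hq, ?_⟩
      by_cases h2 : q.1 ∈ X
      · by_cases h3 : q.2 ∈ X
        · exact Or.inr (Or.inr (h h2 h3))
        · exact Or.inr (Or.inl h3)
      · exact Or.inl h2
  · rw [List.pairwise_iff_getElem]
    push Not
    constructor
    · rintro ⟨⟨⟨i, j⟩, p, q⟩, h2, h3, h4, h5⟩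
      simp only at h2 h3 h4 h5
      rw [List.getElem?_eq_some_iff] at h3 h4
      obtain ⟨hi, hi2⟩ := h3
      obtain ⟨hj, hj2⟩ := h4
      refine ⟨i, j, hi, hj, h2, ?_⟩
      rw [hi2, hj2]
      exact h5
    · rintro ⟨i, j, hi, hj, h2, h3⟩
      exact ⟨((i, j), (u[i], u[j])), h2, List.getElem?_eq_getElem hi, List.getElem?_eq_getElem hj,
        h3⟩

/-- **Transfer.** If `c` and `c'` agree outside a sparse set then every solution of `c'` computes,
together with `c`, a solution of `c` of the same colour, whose finite sums are finite sums of the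
given solution. -/
theorem sub {k m : ℕ} {c c' : ℕ → Fin k} {R X : Set ℕ} (hR : Sparse m R)
    (hag : ∀ n, n ∉ R → c n = c' n) (hX : X.Infinite) {i : Fin k}
    (hi : ∀ F : Finset ℕ, (F : Set ℕ) ⊆ X → F.Nonempty → c' (∑ x ∈ F, x) = i)
    (hc : Gr A c) (hXA : Dec A X) :
    ∃ Y : Set ℕ, (Y.Infinite ∧ 0 ∉ Y ∧ ∀ F : Finset ℕ, (F : Set ℕ) ⊆ Y → F.Nonempty →
      c (∑ x ∈ F, x) = i) ∧ (∀ F : Finset ℕ, (F : Set ℕ) ⊆ Y → F.Nonempty →
        ∃ G : Finset ℕ, (G : Set ℕ) ⊆ X ∧ G.Nonempty ∧ ∑ x ∈ G, x = ∑ x ∈ F, x) ∧ Dec A Y := by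
  obtain ⟨b, hb⟩ := exists_bound hR hX
  obtain ⟨p, w, hp, hw0, hw, h⟩ := greedy (A := A) (β := ℕ × ℕ) (Inv := Iv X)
    (R := fun u y => (y.1 ∈ X ∧ y.2 ∈ X ∧ y.1 < y.2) ∧ (∀ x ∈ u, x.1 + x.2 < y.1) ∧
      ∀ s ∈ sums (u.map fun q => q.1 + q.2), c (y.1 + y.2 + s) = i)
    (re_not_iv hXA)
    (by
      refine REIn.and (REIn.and ?_ (REIn.and ?_ ?_)) (REIn.and ?_ ?_)
      · exact hXA.1.comp (f := fun x : List (ℕ × ℕ) × (ℕ × ℕ) => x.2.1) (by fun_prop)
      · exact hXA.1.comp (f := fun x : List (ℕ × ℕ) × (ℕ × ℕ) => x.2.2) (by fun_prop)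
      · exact (dp_lt (f := fun x : List (ℕ × ℕ) × (ℕ × ℕ) => x.2.1)
          (g := fun x : List (ℕ × ℕ) × (ℕ × ℕ) => x.2.2) (by fun_prop) (by fun_prop)).1
      · refine REIn.all_mem (S := fun (x : List (ℕ × ℕ) × (ℕ × ℕ)) (a : ℕ × ℕ) => a.1 + a.2 < x.2.1)
          (l := fun x : List (ℕ × ℕ) × (ℕ × ℕ) => x.1) ?_ (by fun_prop)
        exact (dp_lt (f := fun x : (List (ℕ × ℕ) × (ℕ × ℕ)) × (ℕ × ℕ) => x.2.1 + x.2.2)
          (g := fun x => x.1.2.1) (Primrec.nat_add.to_comp.comp (by fun_prop) (by fun_prop))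
          (by fun_prop)).1
      · have hmap : Computable fun u : List (ℕ × ℕ) => u.map fun q => q.1 + q.2 := by
          have : Primrec fun u : List (ℕ × ℕ) => u.map fun q => q.1 + q.2 :=
            Primrec.list_map Primrec.id (Primrec₂.mk
              (Primrec.nat_add.comp (Primrec.fst.comp Primrec.snd) (Primrec.snd.comp Primrec.snd)))
          exact this.to_comp
        refine REIn.all_mem (S := fun (x : List (ℕ × ℕ) × (ℕ × ℕ)) (s : ℕ) =>
          c (x.2.1 + x.2.2 + s) = i)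
          (l := fun x : List (ℕ × ℕ) × (ℕ × ℕ) => sums (x.1.map fun q => q.1 + q.2)) ?_
          (computable_sums.comp (hmap.comp Computable.fst))
        exact Gr.eq_const hc i (f := fun x : (List (ℕ × ℕ) × (ℕ × ℕ)) × ℕ => x.1.2.1 + x.1.2.2 + x.2)
          (Primrec.nat_add.to_comp.comp (Primrec.nat_add.to_comp.comp (by fun_prop) (by fun_prop))
            (by fun_prop)))
    ⟨by simp, List.Pairwise.nil⟩
    (by
      intro u hu
      obtain ⟨y₁, hy1, hy2⟩ := hX.exists_gt (max b ((u.map fun q => q.1 + q.2).sum))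
      obtain ⟨y₂, hy3, hy4, hy5⟩ := hb y₁ (lt_of_le_of_lt (le_max_left _ _) hy2)
        (sums (u.map fun q => q.1 + q.2))
      have hlt : ∀ x ∈ u, x.1 + x.2 < y₁ := by
        intro x hx
        refine lt_of_le_of_lt (le_trans ?_ (le_max_right _ _)) hy2
        exact List.le_sum_of_mem (List.mem_map.2 ⟨x, hx, rfl⟩)
      refine ⟨(y₁, y₂), ⟨hy1, hy4, hy3⟩, hlt, fun s hs => ?_⟩
      obtain ⟨G, hG1, hG2, hG3⟩ := iv_sums u hu s hs
      have hG4 : ∀ g ∈ G, g < y₁ := by
        intro g hg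
        obtain ⟨q, hq, hq2⟩ := hG3 g hg
        exact lt_of_le_of_lt hq2 (hlt q hq)
      have n2 : y₂ ∉ G := fun h => by have := hG4 _ h; omega
      have n1 : y₁ ∉ insert y₂ G := by
        rw [Finset.mem_insert]
        rintro (h | h)
        · omega
        · exact lt_irrefl _ (hG4 _ h)
      have h1 := hi (insert y₁ (insert y₂ G)) (by
        intro g hg
        rw [Finset.mem_coe, Finset.mem_insert, Finset.mem_insert] at hg
        rcases hg with rfl | rfl | hg
        · exact hy1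
        · exact hy4
        · exact hG1 hg) (Finset.insert_nonempty _ _)
      rw [Finset.sum_insert n1, Finset.sum_insert n2, hG2, ← add_assoc] at h1
      show c (y₁ + y₂ + s) = i
      rw [hag _ (hy5 s hs)]
      exact h1)
    (by
      rintro u y ⟨h1, h2⟩ ⟨h3, h4, _⟩
      refine ⟨?_, List.pairwise_cons.2 ⟨h4, h2⟩⟩
      intro q hq
      rcases List.mem_cons.1 hq with rfl | hq
      · exact h3
      · exact h1 q hq)
  have hmono : StrictMono fun n => (p n).1 + (p n).2 := by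
    apply strictMono_nat_of_lt_succ
    intro n
    have h1 := (h (n + 1)).2.2.1
    rw [hw] at h1
    have h2 := h1 _ List.mem_cons_self
    omega
  have hval : Gr A fun n => (p n).1 + (p n).2 :=
    Gr.post (g := fun q : ℕ × ℕ => q.1 + q.2)
      (Primrec.nat_add.to_comp.comp (by fun_prop) (by fun_prop)) hp
  have hfs := fs_of hmono (w := fun n => (w n).map fun q => q.1 + q.2) (by rw [hw0]; rfl)
    (by intro n; rw [hw]; rfl) (P := fun t => c t = i ∧ ∃ G : Finset ℕ, (G : Set ℕ) ⊆ X ∧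
      G.Nonempty ∧ ∑ x ∈ G, x = t) (by
        intro n s hs
        obtain ⟨hI, ⟨hy1, hy4, hy3⟩, hlt, h3⟩ := h n
        refine ⟨h3 s hs, ?_⟩
        obtain ⟨G, hG1, hG2, hG3⟩ := iv_sums (w n) hI s hs
        have hG4 : ∀ g ∈ G, g < (p n).1 := by
          intro g hg
          obtain ⟨q, hq, hq2⟩ := hG3 g hg
          exact lt_of_le_of_lt hq2 (hlt q hq)
        have n2 : (p n).2 ∉ G := fun h => by have := hG4 _ h; omega
        have n1 : (p n).1 ∉ insert (p n).2 G := by
          rw [Finset.mem_insert]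
          rintro (h | h)
          · omega
          · exact lt_irrefl _ (hG4 _ h)
        refine ⟨insert (p n).1 (insert (p n).2 G), ?_, Finset.insert_nonempty _ _, ?_⟩
        · intro g hg
          rw [Finset.mem_coe, Finset.mem_insert, Finset.mem_insert] at hg
          rcases hg with rfl | rfl | hg
          · exact hy1
          · exact hy4
          · exact hG1 hg
        · rw [Finset.sum_insert n1, Finset.sum_insert n2, hG2, ← add_assoc])
  refine ⟨Set.range fun n => (p n).1 + (p n).2,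
    ⟨Set.infinite_range_of_injective hmono.injective, ?_, fun F hF hne => (hfs F hF hne).1⟩,
    fun F hF hne => (hfs F hF hne).2, range_dec hval hmono⟩
  rintro ⟨n, hn⟩
  have hn' : (p n).1 + (p n).2 = 0 := hn
  have h1 := (h n).2.1.2.2
  omega

end Pool.Agent.Helper13s
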