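import Pool.Agent.Helper13s.Prob

/-!
# Hindman's theorem and perturbed colourings: existence of the noise, and two examples (helper13)
-/

set_option autoImplicit false

namespace Pool.Agent.Helper13s

open MeasureTheory ProbabilityTheory Filter

section ex

variable {k : ℕ}

local instance : MeasurableSpace (Option (Fin k)) := ⊤

local instance : DiscreteMeasurableSpace (Option (Fin k)) := ⟨fun _ => trivial⟩

/-- the law of `Z n` -/
noncomputable def nu (k : ℕ) (d : ℝ) : Measure (Option (Fin k)) :=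
  ENNReal.ofReal (1 - d) • Measure.dirac none +
    ∑ i : Fin k, ENNReal.ofReal (d / k) • Measure.dirac (some i)

theorem nu_some (d : ℝ) (i : Fin k) : nu k d {some i} = ENNReal.ofReal (d / k) := by
  unfold nu
  rw [Measure.add_apply, Measure.smul_apply, Measure.finsetSum_apply]
  rw [Measure.dirac_apply' _ (MeasurableSet.of_discrete)]
  rw [Finset.sum_eq_single i]
  · rw [Measure.smul_apply, Measure.dirac_apply' _ (MeasurableSet.of_discrete)]
    simp
  · intro j _ hj
    rw [Measure.smul_apply, Measure.dirac_apply' _ (MeasurableSet.of_discrete)]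
    simp [hj]
  · intro h
    exact absurd (Finset.mem_univ i) h

theorem nu_univ {d : ℝ} (h0 : 0 ≤ d) (h1 : d ≤ 1) (hk : 0 < k) : nu k d Set.univ = 1 := by
  unfold nu
  rw [Measure.add_apply, Measure.smul_apply, Measure.finsetSum_apply]
  simp only [Measure.smul_apply, measure_univ, smul_eq_mul, mul_one, Finset.sum_const,
    Finset.card_univ, Fintype.card_fin, nsmul_eq_mul]
  have hk' : (0 : ℝ) < k := by exact_mod_cast hk
  rw [← ENNReal.ofReal_natCast k, ← ENNReal.ofReal_mul (Nat.cast_nonneg k), mul_div_cancel₀ _ hk'.ne',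
    ← ENNReal.ofReal_add (by linarith) h0]
  simp

theorem exists_noise {δ : ℕ → ℝ} (h0 : ∀ n, 0 ≤ δ n) (h1 : ∀ n, δ n ≤ 1) (hk : 0 < k) :
    ∃ (Ω : Type) (_ : MeasurableSpace Ω) (μ : Measure Ω) (Z : ℕ → Ω → Option (Fin k)),
      IsProbabilityMeasure μ ∧ Noise μ k δ Z := by
  haveI : ∀ n, IsProbabilityMeasure (nu k (δ n)) := fun n => ⟨nu_univ (h0 n) (h1 n) hk⟩
  obtain ⟨Ω, mΩ, μ, Z, hm, hl, hi, hp⟩ := exists_hasLaw_indepFun
    (fun _ : ℕ => Option (Fin k)) (fun n => nu k (δ n))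
  refine ⟨Ω, mΩ, μ, Z, hp, ⟨fun n i => ?_, fun n i => ?_, hi⟩⟩
  · exact hm n (MeasurableSet.of_discrete (s := {some i}))
  · have h2 : μ {ω | Z n ω = some i} = (μ.map (Z n)) {some i} := by
      rw [Measure.map_apply (hm n) (MeasurableSet.of_discrete (s := {some i}))]
      rfl
    rw [h2, (hl n).map_eq, nu_some]

end ex

theorem sub_ex {ε : ℝ} (hε : 0 < ε) : ∃ m : ℕ, Summable fun n : ℕ => (((n : ℝ) + 1) ^ (-ε)) ^ m := by
  obtain ⟨m, hm⟩ := exists_nat_gt (1 / ε)
  have hm' : 1 < ε * m := by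
    rw [div_lt_iff₀ hε] at hm
    linarith
  refine ⟨m, ?_⟩
  have h1 := (Real.summable_one_div_nat_add_rpow 1 (ε * m)).2 hm'
  refine h1.congr fun n => ?_
  have hn : (0 : ℝ) < (n : ℝ) + 1 := by positivity
  rw [abs_of_pos hn, ← Real.rpow_natCast (((n : ℝ) + 1) ^ (-ε)) m, ← Real.rpow_mul hn.le, neg_mul,
    Real.rpow_neg hn.le, one_div]

theorem super_ex (C m : ℕ) : ¬ Summable fun n : ℕ => ((1 / Real.log ((n : ℝ) + 3)) ^ C) ^ m := by
  intro h
  have h1 : ¬ Summable fun n : ℕ => 1 / |(n : ℝ) + 3| ^ (1 : ℝ) := by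
    rw [Real.summable_one_div_nat_add_rpow]
    exact lt_irrefl _
  apply h1
  refine summable_of_isBigO_nat h ?_
  have h2 : Tendsto (fun n : ℕ => (n : ℝ) + 3) atTop atTop :=
    tendsto_atTop_add_const_right _ _ tendsto_natCast_atTop_atTop
  have h3 := (Real.isLittleO_pow_log_id_atTop (n := C * m)).comp_tendsto h2
  have h4 := h3.bound (c := 1) one_pos
  refine Asymptotics.IsBigO.of_bound 1 ?_
  filter_upwards [h4] with n hn
  have hpos : (0 : ℝ) < (n : ℝ) + 3 := by positivity
  have hl : 0 < Real.log ((n : ℝ) + 3) := Real.log_pos (by linarith [Nat.cast_nonneg (α := ℝ) n])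
  simp only [Function.comp_apply, id_eq, one_mul, Real.norm_eq_abs] at hn
  rw [abs_of_pos (pow_pos hl _), abs_of_pos hpos] at hn
  rw [abs_of_pos hpos, Real.rpow_one, ← pow_mul, one_div_pow, one_mul, Real.norm_eq_abs,
    Real.norm_eq_abs, abs_of_pos (one_div_pos.2 hpos), abs_of_pos (one_div_pos.2 (pow_pos hl _))]
  exact one_div_le_one_div_of_le (pow_pos hl _) hn

end Pool.Agent.Helper13s
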