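import Mathlib

/-!
# Hindman's theorem and perturbed colourings: the probabilistic part (helper13)
-/

set_option autoImplicit false
set_option linter.unusedSectionVars false

namespace Pool.Agent.Helper13s

open MeasureTheory ProbabilityTheory Filter

/-- The random perturbation: independent random variables `Z 0, Z 1, ...`; `Z n = none` means that the
place `n` is not changed, `Z n = some i` that it gets the colour `i`, which has the probability
`δ n / k`. -/
structure Noise {Ω : Type*} [MeasurableSpace Ω] (μ : Measure Ω) (k : ℕ) (δ : ℕ → ℝ)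
    (Z : ℕ → Ω → Option (Fin k)) : Prop where
  meas : ∀ n i, MeasurableSet {ω | Z n ω = some i}
  law : ∀ n i, μ {ω | Z n ω = some i} = ENNReal.ofReal (δ n / k)
  indep : iIndepFun (m := fun _ => ⊤) Z μ

theorem not_summable_ap {a : ℕ → ℝ} (h0 : ∀ n, 0 ≤ a n) (ha : ¬ Summable a) {M : ℕ} (hM : 0 < M) :
    ∃ r, ¬ Summable fun t => a (M * t + r) := by
  by_contra hcon
  push Not at hcon
  apply ha
  have : NeZero M := ⟨hM.ne'⟩
  have h2 : Summable fun x : ℕ × Fin M => a (M * x.1 + x.2) := by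
    rw [summable_prod_of_nonneg (fun x => h0 _)]
    refine ⟨fun _ => Summable.of_finite, ?_⟩
    simp only [tsum_fintype]
    exact summable_sum fun r _ => hcon r
  have h4 := (Nat.divModEquiv M).summable_iff.2 h2
  refine h4.congr fun n => ?_
  simp [Nat.divModEquiv, Nat.div_add_mod]

/-- The two sums for antitone rates. -/
theorem summable_iff {δ : ℕ → ℝ} (hδ : Antitone δ) (h0 : ∀ n, 0 ≤ δ n) (H : Finset ℕ) :
    (Summable fun y => ∏ h ∈ H, δ (y + h)) ↔ Summable fun n => δ n ^ H.card := by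
  constructor
  · intro h
    have h1 : Summable fun y => δ (y + H.sup id) ^ H.card := by
      refine Summable.of_nonneg_of_le (fun y => pow_nonneg (h0 _) _) (fun y => ?_) h
      rw [← Finset.prod_const]
      refine Finset.prod_le_prod (fun _ _ => h0 _) fun h hh => hδ ?_
      have : h ≤ H.sup id := Finset.le_sup (f := id) hh
      omega
    exact (summable_nat_add_iff (f := fun n => δ n ^ H.card) (H.sup id)).1 h1
  · intro h
    refine Summable.of_nonneg_of_le (fun y => Finset.prod_nonneg fun _ _ => h0 _) (fun y => ?_) h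
    rw [← Finset.prod_const]
    exact Finset.prod_le_prod (fun _ _ => h0 _) fun h _ => hδ (by omega)

variable {Ω : Type*} [MeasurableSpace Ω] {μ : Measure Ω} [IsProbabilityMeasure μ] {k : ℕ}
  {δ : ℕ → ℝ} {Z : ℕ → Ω → Option (Fin k)}

theorem Noise.prod (hZ : Noise μ k δ Z) (S : Finset ℕ) (i : Fin k) :
    μ (⋂ n ∈ S, {ω | Z n ω = some i}) = ∏ n ∈ S, μ {ω | Z n ω = some i} :=
  hZ.indep.measure_inter_preimage_eq_mul S (sets := fun _ => {some i}) (fun _ _ => trivial)

/-- **Borel–Cantelli, second part.** -/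
theorem Noise.rich (hZ : Noise μ k δ Z) (h0 : ∀ n, 0 ≤ δ n)
    (hs : ∀ H : Finset ℕ, ¬ Summable fun y => ∏ h ∈ H, δ (y + h)) :
    ∀ᵐ ω ∂μ, ∀ (H : Finset ℕ) (i : Fin k), ∃ᶠ y in atTop, ∀ h ∈ H, Z (y + h) ω = some i := by
  rw [ae_all_iff]
  intro H
  rw [ae_all_iff]
  intro i
  have hk : (0 : ℝ) < k := by
    have : 0 < k := lt_of_le_of_lt (Nat.zero_le _) i.isLt
    exact_mod_cast this
  obtain ⟨M, hM⟩ : ∃ M : ℕ, M = H.sup id + 1 := ⟨_, rfl⟩
  have hM0 : 0 < M := by omega
  have hHM : ∀ h ∈ H, h < M := by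
    intro h hh
    have : h ≤ H.sup id := Finset.le_sup (f := id) hh
    omega
  obtain ⟨r, hr⟩ := not_summable_ap (fun y => Finset.prod_nonneg fun h (_ : h ∈ H) => h0 (y + h))
    (hs H) hM0
  obtain ⟨E, hE⟩ : ∃ E : ℕ → Set Ω, E = fun t => ⋂ h ∈ H, {ω | Z (M * t + r + h) ω = some i} :=
    ⟨_, rfl⟩
  have hEm : ∀ t, MeasurableSet (E t) := by
    intro t
    rw [hE]
    exact Finset.measurableSet_biInter H fun h _ => hZ.meas _ _
  have hinj : Function.Injective2 fun (t : ℕ) (h : Fin M) => M * t + (h : ℕ) := by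
    intro t t' h h' e
    have e' : M * t + (h : ℕ) = M * t' + (h' : ℕ) := e
    have h1 : (M * t + (h : ℕ)) / M = t := by
      rw [Nat.mul_add_div hM0, Nat.div_eq_of_lt h.isLt, add_zero]
    have h2 : (M * t' + (h' : ℕ)) / M = t' := by
      rw [Nat.mul_add_div hM0, Nat.div_eq_of_lt h'.isLt, add_zero]
    rw [e', h2] at h1
    subst h1
    exact ⟨rfl, Fin.ext (by omega)⟩
  have hEp : ∀ t, μ (E t) = ∏ h ∈ H, μ {ω | Z (M * t + r + h) ω = some i} := by
    intro t
    have h1 := hZ.prod (H.image fun h => M * t + r + h) i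
    rw [Finset.prod_image (fun a _ b _ hab => by simpa using hab)] at h1
    rw [← h1, hE]
    congr 1
    ext ω
    simp
  have hind : iIndepSet E μ := by
    rw [iIndepSet_iff_meas_biInter hEm]
    intro S
    have h1 := hZ.prod ((S ×ˢ H).image fun x => M * x.1 + r + x.2) i
    rw [Finset.prod_image (by
      intro a ha b hb hab
      rw [Finset.mem_coe, Finset.mem_product] at ha hb
      have hab' : M * a.1 + a.2 = M * b.1 + b.2 := by
        have hab'' : M * a.1 + r + a.2 = M * b.1 + r + b.2 := hab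
        omega
      have := hinj (a₁ := a.1) (a₂ := b.1) (b₁ := ⟨a.2, hHM _ ha.2⟩) (b₂ := ⟨b.2, hHM _ hb.2⟩) hab'
      exact Prod.ext this.1 (congrArg Fin.val this.2)), Finset.prod_product] at h1
    rw [Finset.prod_congr rfl fun t _ => hEp t, ← h1, hE]
    congr 1
    ext ω
    simp only [Set.mem_iInter, Finset.mem_image, Finset.mem_product]
    constructor
    · rintro h2 n ⟨⟨t, h⟩, ⟨h3, h4⟩, rfl⟩
      exact h2 t h3 h h4
    · intro h2 t h3 h h4
      exact h2 _ ⟨(t, h), ⟨h3, h4⟩, rfl⟩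
  have hsum : ∑' t, μ (E t) = ⊤ := by
    by_contra hcon
    apply hr
    have h1 : ∑' t, ENNReal.ofReal (∏ h ∈ H, (δ (M * t + r + h) / k)) ≠ ⊤ := by
      refine ne_top_of_le_ne_top hcon (ENNReal.tsum_le_tsum fun t => ?_)
      rw [hEp, ENNReal.ofReal_prod_of_nonneg fun h _ => div_nonneg (h0 _) hk.le]
      refine Finset.prod_le_prod' fun h _ => ?_
      rw [hZ.law]
    have h2 := ENNReal.summable_toReal h1
    have h3 : Summable fun t => ∏ h ∈ H, (δ (M * t + r + h) / k) := by
      refine h2.congr fun t => ?_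
      rw [ENNReal.toReal_ofReal (Finset.prod_nonneg fun h _ => div_nonneg (h0 _) hk.le)]
    have h4 := h3.mul_right ((k : ℝ) ^ H.card)
    refine h4.congr fun t => ?_
    rw [Finset.prod_div_distrib, Finset.prod_const, div_mul_cancel₀ _ (pow_ne_zero _ hk.ne')]
  have hlim := measure_limsup_eq_one hEm hind hsum
  have hae : ∀ᵐ ω ∂μ, ω ∈ limsup E atTop := by
    rw [← mem_ae_iff_prob_eq_one (MeasurableSet.measurableSet_limsup hEm)] at hlim
    exact hlim
  filter_upwards [hae] with ω hω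
  rw [Filter.mem_limsup_iff_frequently_mem] at hω
  rw [Filter.frequently_atTop] at hω ⊢
  intro a
  obtain ⟨t, ht, hω2⟩ := hω a
  refine ⟨M * t + r, (ht.trans (Nat.le_mul_of_pos_left t hM0)).trans (Nat.le_add_right _ _),
    fun h hh => ?_⟩
  rw [hE] at hω2
  simp only [Set.mem_iInter] at hω2
  exact hω2 h hh

theorem Noise.le (hZ : Noise μ k δ Z) (n : ℕ) :
    μ {ω | Z n ω ≠ none} ≤ ENNReal.ofReal (δ n) := by
  have h1 : {ω | Z n ω ≠ none} = ⋃ i : Fin k, {ω | Z n ω = some i} := by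
    ext ω
    rw [Set.mem_iUnion]
    exact Option.ne_none_iff_exists'
  rw [h1]
  refine (measure_iUnion_fintype_le μ _).trans ?_
  rw [Finset.sum_congr rfl fun i _ => hZ.law n i, Finset.sum_const, Finset.card_univ,
    Fintype.card_fin, nsmul_eq_mul]
  rcases Nat.eq_zero_or_pos k with hk | hk
  · rw [hk]
    simp
  · have hk' : (0 : ℝ) < k := by exact_mod_cast hk
    rw [← ENNReal.ofReal_natCast k, ← ENNReal.ofReal_mul (Nat.cast_nonneg k)]
    apply ENNReal.ofReal_le_ofReal
    rw [mul_div_cancel₀ _ hk'.ne']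

/-- **Borel–Cantelli, first part.** -/
theorem Noise.poor (hZ : Noise μ k δ Z) (h0 : ∀ n, 0 ≤ δ n) {m : ℕ}
    (hs : ∀ H : Finset ℕ, H.card = m → Summable fun y => ∏ h ∈ H, δ (y + h)) :
    ∀ᵐ ω ∂μ, ∀ H : Finset ℕ, H.card = m → {y | ∀ h ∈ H, Z (y + h) ω ≠ none}.Finite := by
  rw [ae_all_iff]
  intro H
  by_cases hH : H.card = m
  swap
  · exact Filter.Eventually.of_forall fun ω h => absurd h hH
  have h1 : ∑' y, μ {ω | ∀ h ∈ H, Z (y + h) ω ≠ none} ≠ ⊤ := by
    have h2 : ∑' y, ENNReal.ofReal (∏ h ∈ H, δ (y + h)) ≠ ⊤ := (hs H hH).tsum_ofReal_ne_top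
    refine ne_top_of_le_ne_top h2 (ENNReal.tsum_le_tsum fun y => ?_)
    have h3 := (hZ.indep.precomp (g := fun h => y + h) (add_right_injective y)).measure_inter_preimage_eq_mul
      H (sets := fun _ => {none}ᶜ) (fun _ _ => trivial)
    have h4 : {ω | ∀ h ∈ H, Z (y + h) ω ≠ none} =
        ⋂ h ∈ H, (fun ω => Z (y + h) ω) ⁻¹' {none}ᶜ := by
      ext ω
      simp
    rw [h4]
    refine (le_of_eq h3).trans ?_
    rw [ENNReal.ofReal_prod_of_nonneg fun h _ => h0 _]
    exact Finset.prod_le_prod' fun h _ => hZ.le (y + h)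
  have h5 := measure_setOfPred_frequently_eq_zero h1
  have h6 : ∀ᵐ ω ∂μ, ¬ ∃ᶠ y in atTop, ∀ h ∈ H, Z (y + h) ω ≠ none := by
    rw [ae_iff]
    simpa only [not_not] using h5
  filter_upwards [h6] with ω hω _
  rw [← Nat.cofinite_eq_atTop, Filter.frequently_cofinite_iff_infinite] at hω
  exact Set.not_infinite.1 hω

end Pool.Agent.Helper13s
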