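import Pool.Agent.Helper13s.Core
import Pool.Agent.Helper13s.Prob
import Pool.Agent.Helper13s.Ex
import Pool.Agent.N640.HU.Main
import Pool.Agent.TH747.HS.FS
import Pool.Agent.Helper76x.HT.Univ3

/-!
# Hindman's theorem under random perturbations of the colouring: a sharp dichotomy

An instance of Hindman's theorem is perturbed: independently for all `n`, with the probability `δ n`
the colour of `n` is replaced by a uniformly distributed random colour.

* If `∑ y, ∏ h ∈ H, δ (y + h) = ∞` for all finite sets `H` (for antitone `δ`: if `∑ δ n ^ m = ∞` for all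
  `m`) then almost surely, for all colourings `c` at once, the perturbed colouring has solutions of
  every colour which are computable from it.
* If `∑ y, ∏ h ∈ H, δ (y + h) < ∞` for all `H` with `m` elements, for some `m` (for antitone `δ`: if
  `∑ δ n ^ m < ∞` for some `m`), then almost surely, for all colourings `c` at once, solutions of `c` and
  of the perturbed colouring compute solutions of each other, with the same colour. So the known
  lower bounds for computable instances hold for the perturbed instances too.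

The second part follows from a theorem on colourings which agree outside a sparse set.
-/

namespace Pool.Agent.Results.MP_69fea5_lc.SmoothedDichotomy

open MeasureTheory ProbabilityTheory

/-- The characteristic function of a set of natural numbers, as a (total) partial function. -/
noncomputable def char (B : Set ℕ) : ℕ →. ℕ := by
  classical exact fun n => Part.some (if n ∈ B then 1 else 0)

/-- The set `B` is computable from the set `A`. -/
def ComputesSet (A B : Set ℕ) : Prop := TuringReducible (char B) (char A)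

/-- The function `f` is computable from the set `A`. -/
def ComputesFun (A : Set ℕ) (f : ℕ → ℕ) : Prop :=
  TuringReducible (fun n => Part.some (f n)) (char A)

/-- `X` is a solution of Hindman's theorem for the colouring `c`, with the colour `i`: an infinite set
of positive integers all of whose sums of finitely many (at least one) distinct elements have the
colour `i`. -/
def Sol {k : ℕ} (c : ℕ → Fin k) (i : Fin k) (X : Set ℕ) : Prop :=
  X.Infinite ∧ 0 ∉ X ∧ ∀ F : Finset ℕ, (F : Set ℕ) ⊆ X → F.Nonempty → c (∑ n ∈ F, n) = i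

/-- The set of the sums of finitely many (at least one) distinct elements of `X`. -/
def FS (X : Set ℕ) : Set ℕ := {s | ∃ F : Finset ℕ, (F : Set ℕ) ⊆ X ∧ F.Nonempty ∧ ∑ n ∈ F, n = s}

/-- `R` contains only finitely many translates of every set with `m` elements. -/
def Sparse (m : ℕ) (R : Set ℕ) : Prop :=
  ∀ H : Finset ℕ, H.card = m → {y | ∀ h ∈ H, y + h ∈ R}.Finite

/-- Every set `A` which computes the colouring `d` and a solution `X` of `c` with the colour `i`
computes a solution `Y` of `d` with the colour `i` and `FS Y ⊆ FS X`. -/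
def Transfer {k : ℕ} (c d : ℕ → Fin k) (i : Fin k) : Prop :=
  ∀ A X : Set ℕ, ComputesFun A (fun n => d n) → ComputesSet A X → Sol c i X →
    ∃ Y, ComputesSet A Y ∧ Sol d i Y ∧ FS Y ⊆ FS X

/-- The random changes: independent random variables `Z 0, Z 1, ...`; `Z n = none` means that the
colour of `n` is not changed, `Z n = some i` that it is replaced by `i`, and this has the
probability `δ n / k` for each of the `k` colours `i`. -/
structure Noise {Ω : Type*} [MeasurableSpace Ω] (μ : Measure Ω) (k : ℕ) (δ : ℕ → ℝ)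
    (Z : ℕ → Ω → Option (Fin k)) : Prop where
  meas : ∀ n i, MeasurableSet {ω | Z n ω = some i}
  law : ∀ n i, μ {ω | Z n ω = some i} = ENNReal.ofReal (δ n / k)
  indep : iIndepFun (m := fun _ => ⊤) Z μ

/-- The noise is supercritical: `∑ y, ∏ h ∈ H, δ (y + h) = ∞` for all finite sets `H`. -/
def Super (δ : ℕ → ℝ) : Prop := ∀ H : Finset ℕ, ¬ Summable fun y => ∏ h ∈ H, δ (y + h)

/-- The noise is subcritical: there is an `m` such that `∑ y, ∏ h ∈ H, δ (y + h) < ∞` for all sets `H`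
with `m` elements. -/
def Sub (δ : ℕ → ℝ) : Prop :=
  ∃ m : ℕ, ∀ H : Finset ℕ, H.card = m → Summable fun y => ∏ h ∈ H, δ (y + h)

/-- The perturbed colouring. -/
def noisy {k : ℕ} (c : ℕ → Fin k) (z : ℕ → Option (Fin k)) (n : ℕ) : Fin k := (z n).getD (c n)

/-- `B` is `Σ⁰₂`. -/
def Sigma2 (B : Set ℕ) : Prop :=
  ∃ R : ℕ → ℕ → ℕ → Bool, Computable (fun q : ℕ × ℕ × ℕ => R q.1 q.2.1 q.2.2) ∧
    B = {n | ∃ a, ∀ b, R n a b = true}

/-- `B` is `Σ⁰₄`. -/
def Sigma4 (B : Set ℕ) : Prop :=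
  ∃ R : ℕ → ℕ → ℕ → ℕ → ℕ → Bool,
    Computable (fun q : ℕ × ℕ × ℕ × ℕ × ℕ => R q.1 q.2.1 q.2.2.1 q.2.2.2.1 q.2.2.2.2) ∧
      ∀ n, n ∈ B ↔ ∃ x, ∀ u, ∃ v, ∀ w, R n x u v w = true

/-- For every `Σ⁰₄` relation between `q` and `m`, `X` computes a function `f` such that for no `q` the
relation holds exactly for `m = f q`: `X` computes functions which are diagonally noncomputable
relative to the triple jump. -/
def DncTripleJump (X : Set ℕ) : Prop :=
  ∀ R : ℕ → ℕ → ℕ → ℕ → ℕ → ℕ → Bool,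
    Computable (fun x : ℕ × ℕ × ℕ × ℕ × ℕ × ℕ =>
      R x.1 x.2.1 x.2.2.1 x.2.2.2.1 x.2.2.2.2.1 x.2.2.2.2.2) →
    ∃ f : ℕ → ℕ, ComputesFun X f ∧
      ∀ q, ¬ ∀ m, (∃ a, ∀ b, ∃ t, ∀ u, R q m a b t u = true) ↔ m = f q

section lib

open Pool.Agent.Y545.HM Pool.Agent.Helper446.Oracle

theorem set_iff {A B : Set ℕ} : ComputesSet A B ↔ Dec A B := by
  classical
  exact turingReducible_iff

theorem fun_iff {A : Set ℕ} {f : ℕ → ℕ} : ComputesFun A f ↔ Gr A f := by
  classical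
  exact turingReducible_fun_iff

theorem col_iff {A : Set ℕ} {k : ℕ} {c : ℕ → Fin k} : ComputesFun A (fun n => c n) ↔ Gr A c :=
  fun_iff.trans St.gr_fin

theorem transfer {k m : ℕ} {R : Set ℕ} (hR : Sparse m R) {c d : ℕ → Fin k}
    (h : ∀ n, n ∉ R → c n = d n) (i : Fin k) : Transfer c d i := by
  rintro A X hA hX ⟨h1, h2, h3⟩
  obtain ⟨Y, hY1, hY2, hY3⟩ := Pool.Agent.Helper13s.sub (A := A) hR (c := d) (c' := c)
    (fun n hn => (h n hn).symm) h1 h3 (col_iff.1 hA) (set_iff.1 hX)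
  refine ⟨Y, set_iff.2 hY3, hY1, ?_⟩
  rintro s ⟨F, hF1, hF2, rfl⟩
  exact hY2 F hF1 hF2

theorem comp_col {A : Set ℕ} {k : ℕ} {c : ℕ → Fin k} (hc : Computable c) :
    ComputesFun A (fun n => c n) := col_iff.2 (Gr.of_comp hc)

theorem self {A : Set ℕ} : ComputesSet A A := set_iff.2 Dec.rfl

theorem trans {A B C : Set ℕ} (h1 : ComputesSet A B) (h2 : ComputesSet B C) : ComputesSet A C :=
  set_iff.2 (Dec.trans (set_iff.1 h2) (set_iff.1 h1))

theorem trans_fun {A B : Set ℕ} {f : ℕ → ℕ} (h1 : ComputesSet A B) (h2 : ComputesFun B f) :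
    ComputesFun A f :=
  fun_iff.2 (Gr.lift (fun_iff.1 h2) (set_iff.1 h1))

theorem all_colours {k : ℕ} {c : ℕ → Fin k} (h : ∀ (H : Finset ℕ) (i : Fin k),
    ∃ᶠ y in Filter.atTop, ∀ h ∈ H, c (y + h) = i) (i : Fin k) {A : Set ℕ}
    (hA : ComputesFun A (fun n => c n)) : ∃ X, ComputesSet A X ∧ Sol c i X := by
  obtain ⟨X, hX1, hX2⟩ := Pool.Agent.Helper13s.super (col_iff.1 hA) i (fun L N => by
    obtain ⟨y, hy1, hy2⟩ := Filter.frequently_atTop.1 (h L.toFinset i) (N + 1)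
    exact ⟨y, by omega, fun s hs => hy2 s (List.mem_toFinset.2 hs)⟩)
  exact ⟨X, set_iff.2 hX2, hX1⟩

end lib

/-- two colours as colours in `Fin k` -/
def emb {k : ℕ} (hk : 2 ≤ k) (b : Bool) : Fin k := if b then ⟨1, by omega⟩ else ⟨0, by omega⟩

theorem emb_inj {k : ℕ} (hk : 2 ≤ k) : Function.Injective (emb hk) := by
  intro a b h
  cases a <;> cases b <;> simp_all [emb]

theorem double {k : ℕ} (hk : 2 ≤ k) : ∃ c : ℕ → Fin k, Computable c ∧
    ∀ (i : Fin k) (X : Set ℕ), Sol c i X → ∀ B, Sigma2 B → ComputesSet X B := by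
  refine ⟨fun n => emb hk (Pool.Agent.N640.HU.cf n),
    (Primrec.dom_finite (emb hk)).to_comp.comp Pool.Agent.N640.HU.c_cf, ?_⟩
  rintro i X ⟨h1, h2, h3⟩ B ⟨R, hR, rfl⟩
  have h4 : ∃ i, ∀ F : Finset ℕ, (F : Set ℕ) ⊆ X → F.Nonempty →
      Pool.Agent.N640.HU.cf (∑ n ∈ F, n) = i := by
    obtain ⟨x, hx⟩ := h1.nonempty
    refine ⟨Pool.Agent.N640.HU.cf x, fun F hF hne => emb_inj hk ?_⟩
    have h5 := h3 {x} (by simpa using hx) (Finset.singleton_nonempty x)
    rw [Finset.sum_singleton] at h5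
    exact (h3 F hF hne).trans h5.symm
  have h5 := Pool.Agent.N640.HU.uniform (𝓕 := fun X : Set ℕ => X.Infinite ∧ 0 ∉ X ∧
    ∃ i, ∀ F : Finset ℕ, (F : Set ℕ) ⊆ X → F.Nonempty → Pool.Agent.N640.HU.cf (∑ n ∈ F, n) = i)
    Pool.Agent.N640.HU.ue_FS (fun X hX => Pool.Agent.N640.HU.good_FS hX.1 hX.2.1 hX.2.2) hR
  have hX : X.Infinite ∧ 0 ∉ X ∧
    ∃ i, ∀ F : Finset ℕ, (F : Set ℕ) ⊆ X → F.Nonempty → Pool.Agent.N640.HU.cf (∑ n ∈ F, n) = i :=
    ⟨h1, h2, h4⟩
  exact set_iff.2 ⟨h5.1.reIn hX, h5.2.reIn hX⟩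

open Pool.Agent.H645R2.HT Pool.Agent.TH747.HS in
theorem diagonal {k : ℕ} (hk : 2 ≤ k) : ∃ c : ℕ → Fin k, Computable c ∧
    ∀ (i : Fin k) (X : Set ℕ), Sol c i X → DncTripleJump X := by
  refine ⟨fun n => emb hk (col (D3k W0 3) n),
    (Primrec.dom_finite (emb hk)).to_comp.comp (c_col (c_D3k c_W0 3)), ?_⟩
  rintro i X ⟨h1, h2, h3⟩ R hR
  have h4 : ∃ i, ∀ F : Finset ℕ, (F : Set ℕ) ⊆ X → F.Nonempty → col (D3k W0 3) (∑ n ∈ F, n) = i := by
    obtain ⟨x, hx⟩ := h1.nonempty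
    refine ⟨col (D3k W0 3) x, fun F hF hne => emb_inj hk ?_⟩
    have h5 := h3 {x} (by simpa using hx) (Finset.singleton_nonempty x)
    rw [Finset.sum_singleton] at h5
    exact (h3 F hF hne).trans h5.symm
  obtain ⟨V, hV, hY, hV2⟩ := hyp_FS h1 h2 h4 (k := 3) (by omega)
  obtain ⟨f, hf1, hf2⟩ := dnc (k := 3) le_rfl hV (zero_notMem_FS h2) hY hV2 re_FS re_not_FS hR
  exact ⟨f, fun_iff.2 hf1, hf2⟩

open Pool.Agent.Helper76x.HT in
theorem separate {k : ℕ} (hk : 2 ≤ k) {B₁ B₀ : Set ℕ} (h1 : Sigma4 B₁) (h0 : Sigma4 B₀)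
    (hd : Disjoint B₁ B₀) : ∃ c : ℕ → ℕ → Fin k, Computable (fun p : ℕ × ℕ => c p.1 p.2) ∧
      ∃ S : Set (Fin k), ∀ a i X, Sol (c a) i X → (a ∈ B₁ → i ∈ S) ∧ (a ∈ B₀ → i ∉ S) := by
  obtain ⟨R, hR, hB1⟩ := h1
  obtain ⟨R', hR', hB0⟩ := h0
  refine ⟨fun a n => Fin.castLE hk (c2 R R' a n),
    (Primrec.dom_finite (Fin.castLE hk)).to_comp.comp (c_c2 hR hR'), {Fin.castLE hk 1}, ?_⟩
  rintro a i X ⟨x1, x2, x3⟩
  obtain ⟨x, hx⟩ := x1.nonempty
  have h4 : ∀ F : Finset ℕ, (F : Set ℕ) ⊆ X → F.Nonempty → c2 R R' a (∑ n ∈ F, n) = c2 R R' a x := by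
    intro F hF hne
    have h5 := x3 {x} (by simpa using hx) (Finset.singleton_nonempty x)
    rw [Finset.sum_singleton] at h5
    exact Fin.castLE_injective hk ((x3 F hF hne).trans h5.symm)
  have h6 : i = Fin.castLE hk (c2 R R' a x) := by
    have h5 := x3 {x} (by simpa using hx) (Finset.singleton_nonempty x)
    rw [Finset.sum_singleton] at h5
    exact h5.symm
  have hno : ∀ n, n ∈ B₁ → n ∉ B₀ := fun n h2 h3 => Set.disjoint_left.1 hd h2 h3
  constructor
  · intro ha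
    have h7 := (main2 (HB_lim1 ((hB1 a).1 ha) fun h => hno a ha ((hB0 a).2 h)) x1 x2 h4).2 trivial
    rw [h6, h7]
    rfl
  · intro ha h8
    have h9 : Fin.castLE hk (c2 R R' a x) = Fin.castLE hk 1 := by
      rw [← h6]
      exact h8
    exact (main2 (HB_lim0 ((hB0 a).1 ha) fun h => hno a ((hB1 a).2 h) ha) x1 x2 h4).1
      (Fin.castLE_injective hk h9)

theorem thick_colour {k : ℕ} {R : Set ℕ} (hR : ∀ H : Finset ℕ, ∃ y, ∀ h ∈ H, y + h ∈ R)
    {c : ℕ → Fin k} {i : Fin k} (hc : ∀ n ∈ R, c n = i) {A : Set ℕ}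
    (hA : ComputesFun A (fun n => c n)) : ∃ X, ComputesSet A X ∧ Sol c i X := by
  obtain ⟨X, hX1, hX2⟩ := Pool.Agent.Helper13s.super (col_iff.1 hA) i (fun L N => by
    obtain ⟨y, hy⟩ := hR (L.toFinset.image fun s => N + 1 + s)
    refine ⟨y + (N + 1), by omega, fun s hs => hc _ ?_⟩
    have h1 := hy (N + 1 + s) (Finset.mem_image.2 ⟨s, List.mem_toFinset.2 hs, rfl⟩)
    rwa [← add_assoc] at h1)
  exact ⟨X, set_iff.2 hX2, hX1⟩

theorem super_iff {δ : ℕ → ℝ} (hδ : Antitone δ) (h0 : ∀ n, 0 ≤ δ n) :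
    Super δ ↔ ∀ m : ℕ, ¬ Summable fun n => δ n ^ m := by
  constructor
  · intro h m hm
    refine h (Finset.range m) ((Pool.Agent.Helper13s.summable_iff hδ h0 _).2 ?_)
    rw [Finset.card_range]
    exact hm
  · intro h H hH
    exact h _ ((Pool.Agent.Helper13s.summable_iff hδ h0 H).1 hH)

theorem sub_iff {δ : ℕ → ℝ} (hδ : Antitone δ) (h0 : ∀ n, 0 ≤ δ n) :
    Sub δ ↔ ∃ m : ℕ, Summable fun n => δ n ^ m := by
  constructor
  · rintro ⟨m, hm⟩
    have h1 := (Pool.Agent.Helper13s.summable_iff hδ h0 _).1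
      (hm (Finset.range m) (Finset.card_range m))
    rw [Finset.card_range] at h1
    exact ⟨m, h1⟩
  · rintro ⟨m, hm⟩
    refine ⟨m, fun H hH => (Pool.Agent.Helper13s.summable_iff hδ h0 H).2 ?_⟩
    rw [hH]
    exact hm

theorem sub_example {ε : ℝ} (hε : 0 < ε) : Sub fun n : ℕ => ((n : ℝ) + 1) ^ (-ε) := by
  refine (sub_iff ?_ fun n => by positivity).2 (Pool.Agent.Helper13s.sub_ex hε)
  intro a b hab
  refine Real.rpow_le_rpow_of_nonpos (by positivity) ?_ (by linarith)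
  have : (a : ℝ) ≤ b := by exact_mod_cast hab
  linarith

theorem super_example (C : ℕ) : Super fun n : ℕ => (1 / Real.log ((n : ℝ) + 3)) ^ C := by
  have hl : ∀ n : ℕ, 0 < Real.log ((n : ℝ) + 3) := fun n =>
    Real.log_pos (by linarith [Nat.cast_nonneg (α := ℝ) n])
  refine (super_iff ?_ fun n => (pow_pos (one_div_pos.2 (hl n)) C).le).2
    (Pool.Agent.Helper13s.super_ex C)
  intro a b hab
  have h1 : (a : ℝ) ≤ b := by exact_mod_cast hab
  exact pow_le_pow_left₀ (one_div_pos.2 (hl b)).le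
    (one_div_le_one_div_of_le (hl a) (Real.log_le_log (by positivity) (by linarith))) C

/-- **Hindman's theorem for perturbed colourings.** -/
theorem result :
    -- colourings which agree outside a sparse set compute solutions of each other from solutions
    (∀ (k m : ℕ) (R : Set ℕ), Sparse m R → ∀ c d : ℕ → Fin k, (∀ n, n ∉ R → c n = d n) →
      ∀ i, Transfer c d i) ∧
    -- if `R` contains a translate of every finite set, a change on `R` makes the instance trivial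
    (∀ (k : ℕ) (R : Set ℕ), (∀ H : Finset ℕ, ∃ y, ∀ h ∈ H, y + h ∈ R) →
      ∀ (c : ℕ → Fin k) (i : Fin k), (∀ n ∈ R, c n = i) →
        ∀ A, ComputesFun A (fun n => c n) → ∃ X, ComputesSet A X ∧ Sol c i X) ∧
    -- random perturbations
    (∀ (Ω : Type) [MeasurableSpace Ω] (μ : Measure Ω) [IsProbabilityMeasure μ] (k : ℕ) (δ : ℕ → ℝ)
      (Z : ℕ → Ω → Option (Fin k)), (∀ n, 0 ≤ δ n) → Noise μ k δ Z →
      -- the supercritical case
      (Super δ → ∀ᵐ ω ∂μ, ∀ (c : ℕ → Fin k) (i : Fin k) (A : Set ℕ),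
        ComputesFun A (fun n => noisy c (Z · ω) n) →
          ∃ X, ComputesSet A X ∧ Sol (noisy c (Z · ω)) i X) ∧
      -- the subcritical case
      (Sub δ →
        (∀ᵐ ω ∂μ, ∀ (c : ℕ → Fin k) (i : Fin k),
          Transfer (noisy c (Z · ω)) c i ∧ Transfer c (noisy c (Z · ω)) i) ∧
        (2 ≤ k →
          (∃ c : ℕ → Fin k, Computable c ∧ ∀ᵐ ω ∂μ, ∀ i X, Sol (noisy c (Z · ω)) i X →
            ∀ B, Sigma2 B → ComputesSet X B) ∧
          (∃ c : ℕ → Fin k, Computable c ∧ ∀ᵐ ω ∂μ, ∀ i X, Sol (noisy c (Z · ω)) i X →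
            DncTripleJump X) ∧
          ∀ B₁ B₀ : Set ℕ, Sigma4 B₁ → Sigma4 B₀ → Disjoint B₁ B₀ →
            ∃ c : ℕ → ℕ → Fin k, Computable (fun p : ℕ × ℕ => c p.1 p.2) ∧ ∃ S : Set (Fin k),
              ∀ᵐ ω ∂μ, ∀ a i X, Sol (noisy (c a) (Z · ω)) i X →
                (a ∈ B₁ → i ∈ S) ∧ (a ∈ B₀ → i ∉ S)))) ∧
    -- antitone rates: exactly one of the two cases holds
    (∀ δ : ℕ → ℝ, Antitone δ → (∀ n, 0 ≤ δ n) →
      (Super δ ↔ ∀ m : ℕ, ¬ Summable fun n => δ n ^ m) ∧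
      (Sub δ ↔ ∃ m : ℕ, Summable fun n => δ n ^ m)) ∧
    -- examples on both sides of the threshold
    (∀ ε : ℝ, 0 < ε → Sub fun n : ℕ => ((n : ℝ) + 1) ^ (-ε)) ∧
    (∀ C : ℕ, Super fun n : ℕ => (1 / Real.log ((n : ℝ) + 3)) ^ C) ∧
    -- the noise exists
    (∀ (k : ℕ) (δ : ℕ → ℝ), 0 < k → (∀ n, 0 ≤ δ n ∧ δ n ≤ 1) →
      ∃ (Ω : Type) (_ : MeasurableSpace Ω) (μ : Measure Ω) (Z : ℕ → Ω → Option (Fin k)),
        IsProbabilityMeasure μ ∧ Noise μ k δ Z) := by
  refine ⟨fun k m R hR c d h i => transfer hR h i, fun k R hR c i hc A hA => thick_colour hR hc hA,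
    ?_, fun δ hδ h0 => ⟨super_iff hδ h0, sub_iff hδ h0⟩, fun ε hε => sub_example hε,
    super_example, ?_⟩
  swap
  · intro k δ hk h
    obtain ⟨Ω, mΩ, μ, Z, hp, hZ⟩ := Pool.Agent.Helper13s.exists_noise (fun n => (h n).1)
      (fun n => (h n).2) hk
    exact ⟨Ω, mΩ, μ, Z, hp, hZ.meas, hZ.law, hZ.indep⟩
  intro Ω _ μ _ k δ Z h0 hZ
  have hZ' : Pool.Agent.Helper13s.Noise μ k δ Z := ⟨hZ.meas, hZ.law, hZ.indep⟩
  refine ⟨fun hs => ?_, ?_⟩
  · filter_upwards [hZ'.rich h0 hs] with ω hω c i A hA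
    refine all_colours (c := noisy c (Z · ω)) (fun H i => ?_) i hA
    refine (hω H i).mono fun y hy h hh => ?_
    show (Z (y + h) ω).getD _ = i
    rw [hy h hh]
    rfl
  · rintro ⟨m, hm⟩
    have key : ∀ᵐ ω ∂μ, ∀ (c : ℕ → Fin k) (i : Fin k),
        Transfer (noisy c (Z · ω)) c i ∧ Transfer c (noisy c (Z · ω)) i := by
      filter_upwards [hZ'.poor h0 hm] with ω hω c i
      have hR : Sparse m {n | Z n ω ≠ none} := hω
      have hag : ∀ n, n ∉ {n | Z n ω ≠ none} → noisy c (Z · ω) n = c n := by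
        intro n hn
        have h1 : Z n ω = none := not_not.1 hn
        show (Z n ω).getD _ = _
        rw [h1]
        rfl
      exact ⟨transfer hR hag i, transfer hR (fun n hn => (hag n hn).symm) i⟩
    refine ⟨key, fun hk => ⟨?_, ?_, ?_⟩⟩
    · obtain ⟨c, hc, hc2⟩ := double hk
      refine ⟨c, hc, ?_⟩
      filter_upwards [key] with ω hω i X hX B hB
      obtain ⟨Y, hY1, hY2, -⟩ := (hω c i).1 X X (comp_col hc) self hX
      exact trans hY1 (hc2 i Y hY2 B hB)
    · obtain ⟨c, hc, hc2⟩ := diagonal hk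
      refine ⟨c, hc, ?_⟩
      filter_upwards [key] with ω hω i X hX R hR
      obtain ⟨Y, hY1, hY2, -⟩ := (hω c i).1 X X (comp_col hc) self hX
      obtain ⟨f, hf1, hf2⟩ := hc2 i Y hY2 R hR
      exact ⟨f, trans_fun hY1 hf1, hf2⟩
    · intro B₁ B₀ h1 h2 hd
      obtain ⟨c, hc, S, hS⟩ := separate hk h1 h2 hd
      refine ⟨c, hc, S, ?_⟩
      filter_upwards [key] with ω hω a i X hX
      have hca : Computable (c a) :=
        hc.comp (g := fun n : ℕ => (a, n)) ((Computable.const a).pair Computable.id)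
      obtain ⟨Y, -, hY2, -⟩ := (hω (c a) i).1 X X (comp_col hca) self hX
      exact hS a i Y hY2

end Pool.Agent.Results.MP_69fea5_lc.SmoothedDichotomy
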